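import Pool.Agent.HF.Stmts

/-!
# Squad HF, module TORH: the homology with coefficients in the tensor square vanishes
-/

set_option autoImplicit false
set_option linter.unusedSectionVars false
set_option linter.unusedVariables false

namespace Pool.Agent.HF.H27

open Pool.Agent.Glue Pool.Agent.FB Pool.Agent.CD Pool.Agent.HF
open scoped TensorProduct

noncomputable section

/-! ### Maps of coefficients -/

section maps

variable {G : Type} [Group G] {I : Type} [Fintype I] {V W : Type} [AddCommGroup V] [Module F2 V]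
  [AddCommGroup W] [Module F2 W]

theorem part_map (σ : Representation F2 G V) (τ : Representation F2 G W) (f : V →ₗ[F2] W)
    (hf : ∀ g v, f (σ g v) = τ g (f v)) (C : Cells G I) (x : I → V) :
    part C τ (fun i => f (x i)) = fun j => f (part C σ x j) := by
  funext j
  change ∑ i, ((C.bd i j).coeff.sum fun h c => (c : F2) • τ h⁻¹ (f (x i))) =
    f (∑ i, ((C.bd i j).coeff.sum fun h c => (c : F2) • σ h⁻¹ (x i)))
  rw [map_sum]
  refine Finset.sum_congr rfl fun i _ => ?_
  rw [Finsupp.sum, Finsupp.sum, map_sum]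
  refine Finset.sum_congr rfl fun g _ => ?_
  rw [map_smul, hf]

variable (h : HFd G)

/-- Outer right multiplication. -/
def RM (q : h.D) : (h.D ⊗[F2] h.D) →ₗ[F2] (h.D ⊗[F2] h.D) :=
  TensorProduct.map LinearMap.id (LinearMap.mulRight F2 q)

theorem RM_tmul (q u v : h.D) : RM h q (u ⊗ₜ[F2] v) = u ⊗ₜ[F2] (v * q) := rfl

theorem rq_tmul (g : G) (u v : h.D) :
    rq h.sg g (u ⊗ₜ[F2] v) = (u * h.sg g⁻¹) ⊗ₜ[F2] (h.sg g * v) := rfl

theorem RM_rq (q : h.D) (g : G) (x : h.D ⊗[F2] h.D) :
    RM h q (rq h.sg g x) = rq h.sg g (RM h q x) := by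
  induction x using TensorProduct.induction_on with
  | zero => simp
  | tmul u v => rw [rq_tmul, RM_tmul, RM_tmul, rq_tmul, mul_assoc]
  | add x y hx hy => rw [map_add, map_add, hx, hy, map_add, map_add]

theorem RM_RM (p q : h.D) (x : h.D ⊗[F2] h.D) : RM h q (RM h p x) = RM h (p * q) x := by
  induction x using TensorProduct.induction_on with
  | zero => simp
  | tmul u v => rw [RM_tmul, RM_tmul, RM_tmul, mul_assoc]
  | add x y hx hy => rw [map_add, map_add, hx, hy, map_add]

theorem RM_one (x : h.D ⊗[F2] h.D) : RM h 1 x = x := by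
  induction x using TensorProduct.induction_on with
  | zero => simp
  | tmul u v => rw [RM_tmul, mul_one]
  | add x y hx hy => rw [map_add, hx, hy]

end maps

/-! ### Conjugation of the skew fields -/

section ds

variable {G D : Type} [Group G] [DivisionRing D] (sg : G →* D)

theorem ds_mono {S T : Set G} (h : S ⊆ T) : DS sg S ≤ DS sg T :=
  Subfield.closure_mono (Set.image_mono h)

theorem sg_mem {S : Set G} {g : G} (h : g ∈ S) : sg g ∈ DS sg S :=
  Subfield.subset_closure ⟨g, h, rfl⟩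

theorem ds_conj {S T : Set G} (a : G) (h : ∀ x ∈ S, a * x * a⁻¹ ∈ T) {x : D}
    (hx : x ∈ DS sg S) : sg a * x * sg a⁻¹ ∈ DS sg T := by
  have h1 : sg a⁻¹ * sg a = 1 := by rw [← map_mul, inv_mul_cancel, map_one]
  have h2 : sg a * sg a⁻¹ = 1 := by rw [← map_mul, mul_inv_cancel, map_one]
  unfold DS at hx
  induction hx using Subfield.closure_induction with
  | mem x hx =>
    obtain ⟨g, hg, rfl⟩ := hx
    rw [← map_mul, ← map_mul]
    exact sg_mem sg (h g hg)
  | one =>
    rw [mul_one, h2]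
    exact one_mem _
  | add x y _ _ hx hy =>
    rw [mul_add, add_mul]
    exact add_mem hx hy
  | neg x _ hx =>
    rw [mul_neg, neg_mul]
    exact neg_mem hx
  | inv x _ hx =>
    have h3 : sg a * x⁻¹ * sg a⁻¹ = (sg a * x * sg a⁻¹)⁻¹ := by
      rw [mul_inv_rev, mul_inv_rev, eq_inv_of_mul_eq_one_left h1, inv_inv, mul_assoc]
    rw [h3]
    exact inv_mem hx
  | mul x y _ _ hx hy =>
    have h3 : sg a * (x * y) * sg a⁻¹ = (sg a * x * sg a⁻¹) * (sg a * y * sg a⁻¹) := by
      calc sg a * (x * y) * sg a⁻¹ = sg a * x * 1 * y * sg a⁻¹ := by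
            rw [mul_one]; simp only [mul_assoc]
        _ = sg a * x * (sg a⁻¹ * sg a) * y * sg a⁻¹ := by rw [h1]
        _ = _ := by simp only [mul_assoc]
    rw [h3]
    exact mul_mem hx hy

end ds

/-! ### The group ring inside the tensor square -/

section kap

variable {G : Type} [Group G] (h : HFd G)

theorem f2_cases : ∀ c : F2, c = 0 ∨ c = 1 := by decide

theorem lin_ind (hsin : SinStmt) (hell : ∀ H : Subgroup G, H ≠ ⊥ → Nonempty (Ell h.sg H)) :
    LinearIndependent F2 h.sg := by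
  classical
  rw [linearIndependent_iff']
  intro s c hc i hi
  have e := s.equivFin
  have h1 := hsin G h.D h.sg hell ⊥ s.card (fun k => algebraMap F2 h.D (c (e.symm k).1))
    (fun k => (e.symm k).1) (by
      intro k
      rcases f2_cases (c (e.symm k).1) with h2 | h2
      · rw [h2, map_zero]
        exact zero_mem _
      · rw [h2, map_one]
        exact one_mem _) (by
      intro k k' hk
      have h2 := mul_inv_eq_one.1 ((Subgroup.mem_bot).1 hk)
      exact e.symm.injective (Subtype.ext h2)) (by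
      rw [← hc]
      rw [← Finset.sum_coe_sort s]
      rw [← Equiv.sum_comp e.symm]
      refine Finset.sum_congr rfl fun k _ => ?_
      rw [Algebra.smul_def])
  have h2 := h1 (e ⟨i, hi⟩)
  simp only [Equiv.symm_apply_apply] at h2
  exact (map_eq_zero _).1 h2

/-- The group ring inside the tensor square. -/
def kap : (G →₀ F2) →ₗ[F2] (h.D ⊗[F2] h.D) :=
  Finsupp.linearCombination F2 (fun g => h.sg g⁻¹ ⊗ₜ[F2] h.sg g)

theorem kap_single (g : G) (c : F2) :
    kap h (Finsupp.single g c) = c • (h.sg g⁻¹ ⊗ₜ[F2] h.sg g) := by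
  unfold kap
  rw [Finsupp.linearCombination_single]

theorem kap_regL (g : G) (x : G →₀ F2) : kap h (regL G g x) = rq h.sg g (kap h x) := by
  induction x using Finsupp.induction_linear with
  | zero => simp
  | add x y hx hy => rw [map_add, map_add, hx, hy, map_add, map_add]
  | single a c =>
    change kap h (Finsupp.mapDomain (fun x => g * x) (Finsupp.single a c)) = _
    rw [Finsupp.mapDomain_single, kap_single, kap_single, map_smul, rq_tmul, mul_inv_rev, map_mul,
      map_mul]

theorem kap_inj (hi : LinearIndependent F2 h.sg) : Function.Injective (kap h) := by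
  obtain ⟨π, hπ⟩ := (Finsupp.linearCombination F2 h.sg).exists_leftInverse_of_injective
    (LinearMap.ker_eq_bot.2 hi)
  have h1 : ∀ g, π (h.sg g) = Finsupp.single g 1 := by
    intro g
    have h2 := LinearMap.congr_fun hπ (Finsupp.single g 1)
    rw [LinearMap.comp_apply, Finsupp.linearCombination_single, one_smul] at h2
    exact h2
  have h3 : ∀ x, finsuppTensorFinsupp' F2 G G (TensorProduct.map π π (kap h x)) =
      Finsupp.mapDomain (fun g => (g⁻¹, g)) x := by
    intro x
    induction x using Finsupp.induction_linear with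
    | zero => simp
    | add x y hx hy => rw [map_add, map_add, map_add, hx, hy, Finsupp.mapDomain_add]
    | single a c =>
      rw [kap_single, map_smul, TensorProduct.map_tmul, h1, h1, map_smul,
        finsuppTensorFinsupp'_single_tmul_single, Finsupp.mapDomain_single, mul_one,
        Finsupp.smul_single, smul_eq_mul, mul_one]
  intro x y hxy
  have h4 : Function.Injective (fun g : G => (g⁻¹, g)) := fun a b hab => congrArg Prod.snd hab
  apply Finsupp.mapDomain_injective h4
  rw [← h3, ← h3, hxy]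

end kap

/-! ### Sums of elementary chains -/

section sums

variable {G : Type} [Group G] (h : HFd G) {I : Type} [Fintype I] [DecidableEq I]

theorem map_sum_single {V W ι : Type} [AddCommGroup V] [Module F2 V] [AddCommGroup W]
    [Module F2 W] [Fintype ι] (f : V →ₗ[F2] W) (i : ι → I) (t : ι → V) :
    (fun j => f ((∑ m, Pi.single (i m) (t m) : I → V) j)) =
      (∑ m, Pi.single (i m) (f (t m)) : I → W) := by
  funext j
  rw [Finset.sum_apply, map_sum, Finset.sum_apply]
  refine Finset.sum_congr rfl fun m _ => ?_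
  rw [Pi.single_apply, Pi.single_apply]
  split_ifs
  · rfl
  · rw [map_zero]

/-- The sum of elementary chains. -/
def ZZ {ι : Type} [Fintype ι] (i : ι → I) (u v : ι → h.D) : I → (h.D ⊗[F2] h.D) :=
  ∑ m, Pi.single (i m) (u m ⊗ₜ[F2] v m)

/-- The chain is a boundary. -/
def Bd (C : Cells G I) (l : ℕ) (x : I → (h.D ⊗[F2] h.D)) : Prop :=
  ∃ y : I → (h.D ⊗[F2] h.D), (∀ j, C.deg j ≠ l + 1 → y j = 0) ∧ part C (rq h.sg) y = x

omit [DecidableEq I] in
theorem bd_RM {C : Cells G I} {l : ℕ} {x : I → (h.D ⊗[F2] h.D)} (q : h.D) (hx : Bd h C l x) :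
    Bd h C l (fun j => RM h q (x j)) := by
  obtain ⟨y, h1, rfl⟩ := hx
  refine ⟨fun j => RM h q (y j), fun j hj => ?_, ?_⟩
  · change RM h q (y j) = 0
    rw [h1 j hj, map_zero]
  · exact part_map (rq h.sg) (rq h.sg) (RM h q) (fun g v => RM_rq h q g v) C y

omit [DecidableEq I] in
theorem bd_of_RM {C : Cells G I} {l : ℕ} {x : I → (h.D ⊗[F2] h.D)} (γ : G)
    (hx : Bd h C l (fun j => RM h (h.sg γ⁻¹) (x j))) : Bd h C l x := by
  have h1 := bd_RM h (h.sg γ) hx
  have h2 : (fun j => RM h (h.sg γ) (RM h (h.sg γ⁻¹) (x j))) = x := by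
    funext j
    rw [RM_RM, ← map_mul, inv_mul_cancel, map_one, RM_one]
  rwa [h2] at h1

theorem exists_dec (x : h.D ⊗[F2] h.D) : ∃ (ι : Type) (_ : Fintype ι) (u v : ι → h.D),
    (∀ m, u m ≠ 0) ∧ (∀ m, v m ≠ 0) ∧ x = ∑ m, u m ⊗ₜ[F2] v m := by
  induction x using TensorProduct.induction_on with
  | zero => exact ⟨Empty, inferInstance, fun m => m.elim, fun m => m.elim, fun m => m.elim,
      fun m => m.elim, by simp⟩
  | tmul u v =>
    by_cases hu : u = 0
    · refine ⟨Empty, inferInstance, fun m => m.elim, fun m => m.elim, fun m => m.elim,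
        fun m => m.elim, ?_⟩
      rw [hu, TensorProduct.zero_tmul]
      simp
    · by_cases hv : v = 0
      · refine ⟨Empty, inferInstance, fun m => m.elim, fun m => m.elim, fun m => m.elim,
          fun m => m.elim, ?_⟩
        rw [hv, TensorProduct.tmul_zero]
        simp
      · exact ⟨Unit, inferInstance, fun _ => u, fun _ => v, fun _ => hu, fun _ => hv, by simp⟩
  | add x y hx hy =>
    obtain ⟨ι, _, u, v, h1, h2, rfl⟩ := hx
    obtain ⟨ι', _, u', v', h1', h2', rfl⟩ := hy
    refine ⟨ι ⊕ ι', inferInstance, Sum.elim u u', Sum.elim v v', ?_, ?_, ?_⟩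
    · rintro (m | m)
      · exact h1 m
      · exact h1' m
    · rintro (m | m)
      · exact h2 m
      · exact h2' m
    · rw [Fintype.sum_sum_type]
      rfl

theorem exists_dec' (l : ℕ) (C : Cells G I) (x : I → (h.D ⊗[F2] h.D))
    (hx : ∀ j, C.deg j ≠ l → x j = 0) :
    ∃ (ι : Type) (_ : Fintype ι) (i : ι → I) (u v : ι → h.D),
    (∀ m, u m ≠ 0) ∧ (∀ m, v m ≠ 0) ∧ (∀ m, C.deg (i m) = l) ∧ x = ZZ h i u v := by
  choose ι hι u v h1 h2 h3 using fun j => exists_dec h (x j)
  refine ⟨Σ j : {j : I // C.deg j = l}, ι j.1, inferInstance, fun m => m.1.1,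
    fun m => u m.1.1 m.2, fun m => v m.1.1 m.2, fun m => h1 _ _, fun m => h2 _ _,
    fun m => m.1.2, ?_⟩
  funext j
  unfold ZZ
  rw [Fintype.sum_sigma, Finset.sum_apply]
  by_cases hj : C.deg j = l
  · rw [Finset.sum_eq_single (⟨j, hj⟩ : {j : I // C.deg j = l})]
    · rw [Finset.sum_apply, h3 j]
      refine Finset.sum_congr rfl fun m _ => ?_
      rw [Pi.single_eq_same]
    · intro j' _ hj'
      rw [Finset.sum_apply]
      refine Finset.sum_eq_zero fun m _ => ?_
      rw [Pi.single_eq_of_ne]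
      exact fun h => hj' (Subtype.ext h.symm)
    · intro h; exact absurd (Finset.mem_univ _) h
  · rw [hx j hj]
    symm
    refine Finset.sum_eq_zero fun j' _ => ?_
    rw [Finset.sum_apply]
    refine Finset.sum_eq_zero fun m _ => ?_
    rw [Pi.single_eq_of_ne]
    intro h
    exact hj (h ▸ j'.2)

end sums

section step

variable {G : Type} [Group G] (h : HFd G) {I : Type} [Fintype I] [DecidableEq I]

/-- The chain in the normal form, after an outer multiplication. -/
theorem zt_eq {r : ℕ} (i : Fin r → I) (u v : Fin r → h.D) (a : Fin r → G) (γ : G) :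
    zt h i a (fun m => u m * h.sg (a m)⁻¹) (fun m => h.sg (a m) * v m * h.sg γ⁻¹) =
      fun j => RM h (h.sg γ⁻¹) (ZZ h i u v j) := by
  unfold ZZ
  rw [map_sum_single]
  unfold zt
  refine Finset.sum_congr rfl fun m _ => ?_
  congr 1
  rw [RM_tmul]
  congr 1
  · rw [mul_assoc, ← map_mul, inv_mul_cancel, map_one, mul_one]
  · rw [← mul_assoc, ← mul_assoc, ← map_mul, inv_mul_cancel, map_one, one_mul]

/-- The subgroup generated by the sources and the quotients of the translations. -/
def Lg {r : ℕ} (R R' : Fin r → Subgroup G) (a b : Fin r → G) (γ : G) : Subgroup G :=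
  Subgroup.closure {y | ∃ m, y ∈ R m ∨ (∃ x ∈ R' m, y = a m * x * (a m)⁻¹) ∨
    y = a m * b m * γ⁻¹}

theorem c_closure {S : Set G} {c : G → ℤ}
    (hc : ∀ x ∈ Subgroup.closure S, ∀ y ∈ Subgroup.closure S, c (x * y) = c x + c y)
    (hS : ∀ x ∈ S, c x = 0) : ∀ x ∈ Subgroup.closure S, c x = 0 := by
  intro x hx
  have h1 : c 1 = 0 := by
    have h2 := hc 1 (one_mem _) 1 (one_mem _)
    rw [mul_one] at h2
    linarith
  induction hx using Subgroup.closure_induction with
  | mem x hx => exact hS x hx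
  | one => exact h1
  | mul x y hx hy h2 h3 => rw [hc x hx y hy, h2, h3, add_zero]
  | inv x hx h2 =>
    have h3 := hc x hx x⁻¹ (inv_mem hx)
    rw [mul_inv_cancel, h1, h2] at h3
    linarith

theorem step (hsin : SinStmt) (hasp : Asp2Stmt) (hta : TaStmt) (htb : TbStmt) (htc : TcStmt)
    (hell : ∀ H : Subgroup G, H ≠ ⊥ → Nonempty (Ell h.sg H)) (C : Cells G I) (hC : Aspherical C)
    (l : ℕ) (hl : 1 ≤ l) (K : CX h.sg (⊤ : Subgroup G)) (r : ℕ) (i : Fin r → I)
    (u v : Fin r → h.D) (hu : ∀ m, u m ≠ 0) (hv : ∀ m, v m ≠ 0) (hi : ∀ m, C.deg (i m) = l)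
    (hcyc : part C (rq h.sg) (ZZ h i u v) = 0)
    (IH : ∀ (ι : Type) [Fintype ι] (i' : ι → I) (u' v' : ι → h.D), (∀ m, u' m ≠ 0) →
      (∀ m, v' m ≠ 0) → (∀ m, C.deg (i' m) = l) → part C (rq h.sg) (ZZ h i' u' v') = 0 →
      ∑ m, K.cx (u' m) * K.cx (v' m) < ∑ m, K.cx (u m) * K.cx (v m) →
      Bd h C l (ZZ h i' u' v')) : Bd h C l (ZZ h i u v) := by
  rcases r with _ | r
  · refine ⟨0, fun j _ => rfl, ?_⟩
    rw [map_zero]
    unfold ZZ
    simp
  choose R R' a b hR hR' hRb hRb' hTB using fun m => htb G h K (u m) (v m) (hu m) (hv m)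
  set γ := a 0 * b 0 with hγ
  set L := Lg R R' a b γ with hL
  have hl1 : ∀ m, R m ≤ L := fun m x hx => Subgroup.subset_closure ⟨m, Or.inl hx⟩
  have hl2 : ∀ m, ∀ x ∈ R' m, a m * x * (a m)⁻¹ ∈ L := fun m x hx =>
    Subgroup.subset_closure ⟨m, Or.inr (Or.inl ⟨x, hx, rfl⟩)⟩
  have hl3 : ∀ m, a m * b m * γ⁻¹ ∈ L := fun m =>
    Subgroup.subset_closure ⟨m, Or.inr (Or.inr rfl)⟩
  apply bd_of_RM h γ
  by_cases hLb : L = ⊥
  · -- the group ring
    have e1 : ∀ m, u m = h.sg (a m) := fun m => hRb m (by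
      have := hl1 m
      rw [hLb] at this
      exact le_bot_iff.1 this)
    have e2 : ∀ m, v m = h.sg (b m) := fun m => hRb' m (by
      rw [Subgroup.eq_bot_iff_forall]
      intro x hx
      have h1 := hl2 m x hx
      rw [hLb, Subgroup.mem_bot] at h1
      have h2 : x = (a m)⁻¹ * (a m * x * (a m)⁻¹) * a m := by group
      rw [h2, h1, mul_one, inv_mul_cancel])
    have e3 : ∀ m, b m * γ⁻¹ = (a m)⁻¹ := fun m => by
      have h1 := hl3 m
      rw [hLb, Subgroup.mem_bot] at h1
      rw [eq_inv_iff_mul_eq_one, mul_assoc, mul_eq_one_iff_eq_inv]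
      rw [mul_assoc] at h1
      rw [mul_eq_one_iff_eq_inv] at h1
      rw [h1]
      group
    have e4 : (fun j => RM h (h.sg γ⁻¹) (ZZ h i u v j)) =
        fun j => kap h ((∑ m, Pi.single (i m) (Finsupp.single (a m)⁻¹ (1 : F2)) :
          I → (G →₀ F2)) j) := by
      unfold ZZ
      rw [map_sum_single, map_sum_single]
      refine Finset.sum_congr rfl fun m _ => ?_
      congr 1
      rw [RM_tmul, kap_single, one_smul, inv_inv, e1, e2, ← map_mul, e3]
    have hinj := kap_inj h (lin_ind h hsin hell)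
    set z : I → (G →₀ F2) := ∑ m, Pi.single (i m) (Finsupp.single (a m)⁻¹ (1 : F2)) with hz
    have e5 : part C (regL G) z = 0 := by
      have h1 := part_map (regL G) (rq h.sg) (kap h) (fun g x => kap_regL h g x) C z
      rw [← e4, part_map (rq h.sg) (rq h.sg) (RM h _) (fun g v => RM_rq h _ g v), hcyc] at h1
      funext j
      apply hinj
      have h2 := congrFun h1 j
      rw [← h2]
      simp
    have e6 : ∀ j, C.deg j ≠ l → z j = 0 := by
      intro j hj
      rw [hz, Finset.sum_apply]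
      refine Finset.sum_eq_zero fun m _ => ?_
      rw [Pi.single_eq_of_ne]
      rintro rfl
      exact hj (hi m)
    obtain ⟨y, h1, h2⟩ := hasp G I C hC l hl z e6 e5
    refine ⟨fun j => kap h (y j), fun j hj => ?_, ?_⟩
    · change kap h (y j) = 0
      rw [h1 j hj, map_zero]
    · rw [e4, part_map (regL G) (rq h.sg) (kap h) (fun g x => kap_regL h g x) C y, h2]
  · -- the expansion
    obtain ⟨E⟩ := hell L hLb
    have hu' : ∀ m, u m * h.sg (a m)⁻¹ ∈ DS h.sg (L : Set G) := fun m =>
      ds_mono h.sg (hl1 m) (hR m)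
    have hv' : ∀ m, h.sg (a m) * v m * h.sg γ⁻¹ ∈ DS h.sg (L : Set G) := fun m => by
      have h1 : h.sg (a m) * v m * h.sg γ⁻¹ =
          (h.sg (a m) * (v m * h.sg (b m)⁻¹) * h.sg (a m)⁻¹) * h.sg (a m * b m * γ⁻¹) := by
        have h2 : (a m)⁻¹ * (a m * b m * γ⁻¹) = b m * γ⁻¹ := by group
        have h3 : (b m)⁻¹ * (b m * γ⁻¹) = γ⁻¹ := by group
        simp only [mul_assoc, ← map_mul]
        rw [show (a m)⁻¹ * (a m * (b m * γ⁻¹)) = b m * γ⁻¹ by group, h3]
      rw [h1]
      exact mul_mem (ds_conj h.sg (a m) (fun x hx => hl2 m x hx) (hR' m)) (sg_mem h.sg (hl3 m))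
    rw [← zt_eq]
    apply htc G h L E I C l (r + 1) i a _ _ hu' hv'
    intro n
    have hcyc' : part C (rq h.sg) (zt h i a (fun m => u m * h.sg (a m)⁻¹)
        (fun m => h.sg (a m) * v m * h.sg γ⁻¹)) = 0 := by
      rw [zt_eq, part_map (rq h.sg) (rq h.sg) (RM h _) (fun g v => RM_rq h _ g v), hcyc]
      funext j
      simp
    have hA := hta G h L E I C (r + 1) i a _ _ hu' hv' hcyc' n
    choose F hF1 hF2 hF3 hF4 hF5 using fun m => hTB m γ L E (hl1 m) (hl2 m) (hl3 m) n
    have e1 : ztn h E i a (fun m => u m * h.sg (a m)⁻¹) (fun m => h.sg (a m) * v m * h.sg γ⁻¹) n =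
        ZZ h (fun m : (Σ m : Fin (r + 1), F m) => i m.1)
          (fun m => (E.L (u m.1 * h.sg (a m.1)⁻¹)).coeff m.2 * h.sg (a m.1))
          (fun m => h.sg (a m.1)⁻¹ * (E.L (h.sg (a m.1) * v m.1 * h.sg γ⁻¹)).coeff (n - m.2)) := by
      unfold ztn ZZ
      rw [Fintype.sum_sigma]
      refine Finset.sum_congr rfl fun m _ => ?_
      rw [hF2 m, map_sum]
      funext j
      rw [Finset.sum_apply]
      by_cases hj : j = i m
      · subst hj
        rw [Pi.single_eq_same, ← Finset.sum_coe_sort (F m)]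
        refine Finset.sum_congr rfl fun p _ => ?_
        rw [Pi.single_eq_same, rq_tmul, inv_inv]
      · rw [Pi.single_eq_of_ne hj]
        symm
        refine Finset.sum_eq_zero fun p _ => ?_
        rw [Pi.single_eq_of_ne hj]
    rw [e1] at hA ⊢
    apply IH
    · intro m h0
      exact (hF1 m.1 m.2 m.2.2).1 ((mul_eq_zero.1 h0).resolve_right (by
        intro h2
        have h3 : h.sg (a m.1) * h.sg (a m.1)⁻¹ = 1 := by rw [← map_mul, mul_inv_cancel, map_one]
        rw [h2, zero_mul] at h3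
        exact zero_ne_one h3))
    · intro m h0
      exact (hF1 m.1 m.2 m.2.2).2 ((mul_eq_zero.1 h0).resolve_left (by
        intro h2
        have h3 : h.sg (a m.1) * h.sg (a m.1)⁻¹ = 1 := by rw [← map_mul, mul_inv_cancel, map_one]
        rw [h2, mul_zero] at h3
        exact zero_ne_one h3))
    · intro m
      exact hi m.1
    · exact hA
    · rw [Fintype.sum_sigma]
      have e2 : ∀ m, ∑ p : F m, K.cx ((E.L (u m * h.sg (a m)⁻¹)).coeff p * h.sg (a m)) *
          K.cx (h.sg (a m)⁻¹ * (E.L (h.sg (a m) * v m * h.sg γ⁻¹)).coeff (n - p)) =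
          ∑ p ∈ F m, K.cx ((E.L (u m * h.sg (a m)⁻¹)).coeff p * h.sg (a m)) *
          K.cx (h.sg (a m)⁻¹ * (E.L (h.sg (a m) * v m * h.sg γ⁻¹)).coeff (n - p)) := fun m =>
        Finset.sum_coe_sort (F m) (fun p => K.cx ((E.L (u m * h.sg (a m)⁻¹)).coeff p *
          h.sg (a m)) * K.cx (h.sg (a m)⁻¹ * (E.L (h.sg (a m) * v m * h.sg γ⁻¹)).coeff (n - p)))
      have e3 : ∑ m, ∑ p : F m, K.cx ((E.L (u m * h.sg (a m)⁻¹)).coeff p * h.sg (a m)) *
          K.cx (h.sg (a m)⁻¹ * (E.L (h.sg (a m) * v m * h.sg γ⁻¹)).coeff (n - p)) =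
          ∑ m, ∑ p ∈ F m, K.cx ((E.L (u m * h.sg (a m)⁻¹)).coeff p * h.sg (a m)) *
          K.cx (h.sg (a m)⁻¹ * (E.L (h.sg (a m) * v m * h.sg γ⁻¹)).coeff (n - p)) :=
        Finset.sum_congr rfl fun m _ => e2 m
      refine lt_of_eq_of_lt e3 ?_
      apply Finset.sum_lt_sum (fun m _ => hF3 m)
      by_cases hc : ∃ m, (∃ x ∈ R m, E.c x ≠ 0) ∨ ∃ x ∈ R' m, E.c (a m * x * (a m)⁻¹) ≠ 0
      · obtain ⟨m, hm⟩ := hc
        exact ⟨m, Finset.mem_univ _, hF4 m hm⟩
      · push Not at hc
        have hex : ∃ m, n ≠ E.c (a m * b m * γ⁻¹) := by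
          by_contra hcon
          push Not at hcon
          have h0 : n = 0 := by
            rw [hcon 0, hγ, mul_inv_cancel]
            have h2 := E.c_mul 1 (one_mem _) 1 (one_mem _)
            rw [mul_one] at h2
            linarith
          have h1 := c_closure (S := {y | ∃ m, y ∈ R m ∨ (∃ x ∈ R' m, y = a m * x * (a m)⁻¹) ∨
            y = a m * b m * γ⁻¹}) (c := E.c) E.c_mul (by
              rintro x ⟨m, hx | ⟨y, hy, rfl⟩ | rfl⟩
              · exact (hc m).1 x hx
              · exact (hc m).2 y hy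
              · rw [← hcon m, h0]) E.t E.t_mem
          rw [E.t_one] at h1
          exact one_ne_zero h1
        obtain ⟨m, hm⟩ := hex
        refine ⟨m, Finset.mem_univ _, ?_⟩
        rw [hF5 m (hc m).1 (hc m).2 hm, Finset.sum_empty]
        have hgen : ∀ x : h.D, x ∈ DS h.sg ((⊤ : Subgroup G) : Set G) := by
          intro x
          rw [Subgroup.coe_top, h.gen]
          trivial
        exact mul_pos (K.pos _ (hgen _) (hu m)) (K.pos _ (hgen _) (hv m))

end step

theorem torh (hcx : CxStmt) (hel : EllStmt) (hsin : SinStmt) (hasp : Asp2Stmt) (hta : TaStmt)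
    (htb : TbStmt) (htc : TcStmt) : TorhStmt := by
  classical
  intro G _ h I _ C hC l hl x hx hcyc
  have hell : ∀ H : Subgroup G, H ≠ ⊥ → Nonempty (Ell h.sg H) := fun H hH =>
    hel G h.D h.sg H (h.chi H hH)
  obtain ⟨K⟩ := hcx G h.D h.sg ⊤
  have key : ∀ κ : K.T, ∀ (ι : Type) [Fintype ι] (i : ι → I) (u v : ι → h.D),
      (∀ m, u m ≠ 0) → (∀ m, v m ≠ 0) → (∀ m, C.deg (i m) = l) →
      part C (rq h.sg) (ZZ h i u v) = 0 → ∑ m, K.cx (u m) * K.cx (v m) = κ →
      Bd h C l (ZZ h i u v) := by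
    intro κ
    induction κ using K.wf.induction with
    | _ κ ih =>
      intro ι _ i u v hu hv hi hc hκ
      have e := Fintype.equivFin ι
      have h1 : ZZ h i u v = ZZ h (fun m => i (e.symm m)) (fun m => u (e.symm m))
          (fun m => v (e.symm m)) := by
        unfold ZZ
        rw [← Equiv.sum_comp e.symm]
      rw [h1] at hc ⊢
      refine step h hsin hasp hta htb htc hell C hC l hl K _ _ _ _ (fun m => hu _) (fun m => hv _)
        (fun m => hi _) hc ?_
      intro ι' _ i' u' v' hu' hv' hi' hc' hlt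
      refine ih _ ?_ ι' i' u' v' hu' hv' hi' hc' rfl
      rw [← hκ]
      rw [Equiv.sum_comp e.symm (fun m => K.cx (u m) * K.cx (v m))] at hlt
      exact hlt
  obtain ⟨ι, _, i, u, v, hu, hv, hi, rfl⟩ := exists_dec' h l C x hx
  exact key _ ι i u v hu hv hi hcyc rfl

end

end Pool.Agent.HF.H27
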